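import Pool.Agent.Y41.WU.Tr

/-!
Project WU: maximal spanning forests inside a closed set as families of forests in the components
(helper41).
-/

set_option autoImplicit false

open MeasureTheory ProbabilityTheory Filter Topology
open scoped ENNReal NNReal BigOperators unitInterval

namespace Pool.Agent.Y41.WU

open Pool.Agent.Y782.WU

variable {V : Type}

theorem ext_comap (H : SimpleGraph V) (hf : ∀ x, (cls H x).Finite) (o : V → I)
    (ho : Function.Injective o) (W : Set V) (hW : ∀ x y, H.Reachable x y → x ∈ W → y ∈ W)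
    {t t' : SimpleGraph V} (ht : ∀ x y, t.Adj x y → x ∈ W ∧ H.Reachable x y)
    (ht' : ∀ x y, t'.Adj x y → x ∈ W ∧ H.Reachable x y)
    (h : ∀ m ∈ Mn H o, m ∈ W → t.comap (phm H hf o ho m) = t'.comap (phm H hf o ho m)) :
    t = t' := by
  have key : ∀ x y, x ∈ W → H.Reachable x y → (t.Adj x y ↔ t'.Adj x y) := by
    intro x y hx hxy
    obtain ⟨m, hm, hmx⟩ := exists_Mn H hf o ho x
    obtain ⟨a, rfl⟩ := phm_surj H hf o ho m hmx
    obtain ⟨b, rfl⟩ := phm_surj H hf o ho m (hmx.trans hxy)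
    have hmW : m ∈ W := hW _ _ hmx.symm hx
    have h1 := h m hm hmW
    have h2 : (t.comap (phm H hf o ho m)).Adj a b ↔ (t'.comap (phm H hf o ho m)).Adj a b := by
      rw [h1]
    exact h2
  ext x y
  constructor
  · intro hxy
    exact (key x y (ht x y hxy).1 (ht x y hxy).2).mp hxy
  · intro hxy
    exact (key x y (ht' x y hxy).1 (ht' x y hxy).2).mpr hxy

/-- the graph glued from graphs in the components -/
def glue (H : SimpleGraph V) (hf : ∀ x, (cls H x).Finite) (o : V → I)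
    (ho : Function.Injective o) (R : Finset V)
    (s : ∀ m : R, SimpleGraph (Fin (cls H m.1).ncard)) : SimpleGraph V where
  Adj x y := ∃ (m : R) (a b : Fin (cls H m.1).ncard), phm H hf o ho m.1 a = x ∧
    phm H hf o ho m.1 b = y ∧ (s m).Adj a b
  symm := ⟨by
    rintro x y ⟨m, a, b, h1, h2, h3⟩
    exact ⟨m, b, a, h2, h1, h3.symm⟩⟩
  loopless := ⟨by
    rintro x ⟨m, a, b, h1, h2, h3⟩
    exact h3.ne (phm_inj H hf o ho m.1 (h1.trans h2.symm))⟩

theorem glue_comap (H : SimpleGraph V) (hf : ∀ x, (cls H x).Finite) (o : V → I)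
    (ho : Function.Injective o) (R : Finset V) (hR : ∀ m ∈ R, m ∈ Mn H o)
    (s : ∀ m : R, SimpleGraph (Fin (cls H m.1).ncard)) (m : R) :
    (glue H hf o ho R s).comap (phm H hf o ho m.1) = s m := by
  ext a b
  constructor
  · rintro ⟨m', a', b', h1, h2, h3⟩
    have h4 : H.Reachable m'.1 m.1 := by
      have h5 := phm_mem H hf o ho m'.1 a'
      rw [h1] at h5
      exact h5.trans (phm_mem H hf o ho m.1 a).symm
    have h6 : m' = m := Subtype.ext (Mn_unique H hf o ho (hR _ m'.2) (hR _ m.2) h4)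
    subst h6
    rw [← phm_inj H hf o ho m'.1 h1, ← phm_inj H hf o ho m'.1 h2]
    exact h3
  · intro h
    exact ⟨m, a, b, rfl, rfl, h⟩

section bij

variable (H A : SimpleGraph V) (hf : ∀ x, (cls H x).Finite) (o : V → I)
  (ho : Function.Injective o) (hA : A ≤ H) (W : Set V)
  (hW : ∀ x y, H.Reachable x y → x ∈ W → y ∈ W) (R : Finset V)
  (hR : ∀ m, m ∈ R ↔ m ∈ Mn H o ∧ m ∈ W)

/-- the restrictions of a forest to the components -/
noncomputable def toPi (t : {t // t ∈ MF A W}) (m : R) :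
    {s // s ∈ MSF (A.comap (phm H hf o ho m.1))} :=
  ⟨t.1.comap (phm H hf o ho m.1), comap_mem H A hf o ho hA W hW ((hR m.1).mp m.2).2 t.2⟩

theorem MF_adj {A : SimpleGraph V} {W : Set V} {t : SimpleGraph V} (hA : A ≤ H)
    (ht : t ∈ MF A W) : ∀ x y, t.Adj x y → x ∈ W ∧ H.Reachable x y :=
  fun x y h => ⟨ht.2.1 x y h, (hA (ht.1 h)).reachable⟩

theorem toPi_bij : Function.Bijective (toPi H A hf o ho hA W hW R hR) := by
  constructor
  · intro t t' h
    apply Subtype.ext
    apply ext_comap H hf o ho W hW (MF_adj H hA t.2) (MF_adj H hA t'.2)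
    intro m hm hmW
    exact congrArg Subtype.val (congrFun h ⟨m, (hR m).mpr ⟨hm, hmW⟩⟩)
  · intro s
    have hR' : ∀ m ∈ R, m ∈ Mn H o := fun m hm => ((hR m).mp hm).1
    refine ⟨⟨glue H hf o ho R (fun m => (s m).1), ?_⟩, ?_⟩
    · apply mem_of_comap H A hf o ho hA W hW
      · rintro x y ⟨m, a, b, rfl, rfl, h3⟩
        have h1 := phm_mem H hf o ho m.1 a
        have h2 := phm_mem H hf o ho m.1 b
        exact ⟨hW _ _ h1 ((hR m.1).mp m.2).2, h1.symm.trans h2⟩
      · intro m hm hmW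
        have h1 := glue_comap H hf o ho R hR' (fun m => (s m).1) ⟨m, (hR m).mpr ⟨hm, hmW⟩⟩
        rw [h1]
        exact (s ⟨m, (hR m).mpr ⟨hm, hmW⟩⟩).2
    · funext m
      apply Subtype.ext
      exact glue_comap H hf o ho R hR' (fun m => (s m).1) m

include hf o ho hA hW hR in
theorem MF_finite : (MF A W).Finite := by
  have h1 := toPi_bij H A hf o ho hA W hW R hR
  have h2 : Finite {t // t ∈ MF A W} := Finite.of_injective _ h1.1
  exact h2

include hA hW hR in
theorem MF_card : (MF A W).ncard = ∏ m : R, (MSF (A.comap (phm H hf o ho m.1))).ncard := by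
  have h1 := toPi_bij H A hf o ho hA W hW R hR
  have h2 := Nat.card_congr (Equiv.ofBijective _ h1)
  rw [Nat.card_pi] at h2
  exact h2

theorem MF_sum (f : ∀ m : V, SimpleGraph (Fin (cls H m).ncard) → ℝ) :
    ∑ t ∈ (MF_finite H A hf o ho hA W hW R hR).toFinset,
      ∏ m : R, f m.1 (t.comap (phm H hf o ho m.1)) =
      ∏ m : R, ∑' s : {s // s ∈ MSF (A.comap (phm H hf o ho m.1))}, f m.1 s.1 := by
  classical
  have h1 := toPi_bij H A hf o ho hA W hW R hR
  have hfin := MF_finite H A hf o ho hA W hW R hR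
  let _ : Fintype {t // t ∈ MF A W} := hfin.fintype
  let _ : ∀ m : R, Fintype {s // s ∈ MSF (A.comap (phm H hf o ho m.1))} :=
    fun m => Fintype.ofFinite _
  have e1 : ∏ m : R, ∑' s : {s // s ∈ MSF (A.comap (phm H hf o ho m.1))}, f m.1 s.1 =
      ∏ m : R, ∑ s : {s // s ∈ MSF (A.comap (phm H hf o ho m.1))}, f m.1 s.1 :=
    Finset.prod_congr rfl fun m _ => tsum_fintype _
  rw [e1, Finset.prod_univ_sum, Fintype.piFinset_univ,
    ← (Equiv.ofBijective _ h1).sum_comp]
  have e2 : ∑ t ∈ hfin.toFinset, ∏ m : R, f m.1 (t.comap (phm H hf o ho m.1)) =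
      ∑ t : {t // t ∈ MF A W}, ∏ m : R, f m.1 (t.1.comap (phm H hf o ho m.1)) := by
    rw [Finset.sum_subtype (p := fun t => t ∈ MF A W) hfin.toFinset (fun t => hfin.mem_toFinset)]
  rw [e2]
  rfl

end bij

/-! ### Restriction -/

theorem rst_adj (t : SimpleGraph V) (C : Set V) (a b : V) :
    (rst t C).Adj a b ↔ t.Adj a b ∧ a ∈ C ∧ b ∈ C := by
  rw [rst, SimpleGraph.fromRel_adj]
  constructor
  · rintro ⟨_, h | h⟩
    · exact h
    · exact ⟨h.1.symm, h.2.2, h.2.1⟩
  · intro h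
    exact ⟨h.1.ne, Or.inl h⟩

theorem rst_mem {A t : SimpleGraph V} {W : Set V} (hW : ∀ x y, A.Reachable x y → x ∈ W → y ∈ W)
    (ht : t ∈ MSF A) : rst t W ∈ MF A W := by
  obtain ⟨h1, h2, h3⟩ := ht
  have hle : rst t W ≤ t := fun a b h => ((rst_adj t W a b).mp h).1
  refine ⟨hle.trans h1, fun a b h => ((rst_adj t W a b).mp h).2.1, ?_, ?_⟩
  · exact h2.comap (SimpleGraph.Hom.ofLE hle) (fun _ _ h => h)
  · intro a b ha hab
    have h4 := h3 a b hab
    rw [SimpleGraph.reachable_iff_reflTransGen] at h4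
    have key : ∀ y, Relation.ReflTransGen t.Adj a y → y ∈ W ∧ (rst t W).Reachable a y := by
      intro y hy
      induction hy with
      | refl => exact ⟨ha, SimpleGraph.Reachable.refl a⟩
      | tail _ hbc ih =>
        have hc : _ ∈ W := hW _ _ (h1 hbc).reachable ih.1
        exact ⟨hc, ih.2.trans
          (SimpleGraph.Adj.reachable ((rst_adj t W _ _).mpr ⟨hbc, ih.1, hc⟩))⟩
    exact (key b h4).2

theorem rst_comap (H : SimpleGraph V) (hf : ∀ x, (cls H x).Finite) (o : V → I)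
    (ho : Function.Injective o) (W : Set V) (hW : ∀ x y, H.Reachable x y → x ∈ W → y ∈ W)
    {m : V} (hm : m ∈ W) (t : SimpleGraph V) :
    (rst t W).comap (phm H hf o ho m) = t.comap (phm H hf o ho m) := by
  ext a b
  rw [SimpleGraph.comap_adj, SimpleGraph.comap_adj, rst_adj]
  exact ⟨fun h => h.1, fun h => ⟨h, hW _ _ (phm_mem H hf o ho m a) hm,
    hW _ _ (phm_mem H hf o ho m b) hm⟩⟩

end Pool.Agent.Y41.WU
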