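import Pool.Agent.Y41.WU.Bij

/-!
Project WU: the law of the forests `Tn` (helper41).
-/

set_option autoImplicit false

open MeasureTheory ProbabilityTheory Filter Topology
open scoped ENNReal NNReal BigOperators unitInterval

namespace Pool.Agent.Y41.WU

open Pool.Agent.Y782.WU

variable {V : Type}

/-- the sigma-algebra generated by one coordinate -/
@[instance_reducible] def sg (V : Type) (i : ℕ) : MeasurableSpace (ℕ → V → I) :=
  MeasurableSpace.comap (fun u : ℕ → V → I => u i) inferInstance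

/-- the sigma-algebra generated by the coordinates before `n` -/
@[instance_reducible] def fn (V : Type) (n : ℕ) : MeasurableSpace (ℕ → V → I) := ⨆ i ∈ Set.Iio n, sg V i

theorem sg_le (i : ℕ) : sg V i ≤ MeasurableSpace.pi := (measurable_pi_apply i).comap_le

theorem fn_le (n : ℕ) : fn V n ≤ MeasurableSpace.pi := iSup₂_le fun i _ => sg_le i

theorem fn_mono (n : ℕ) : fn V n ≤ fn V (n + 1) :=
  biSup_mono fun _ hi => Set.mem_Iio.mpr (lt_trans (Set.mem_Iio.mp hi) (Nat.lt_succ_self n))

theorem sg_fn (n : ℕ) : sg V n ≤ fn V (n + 1) :=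
  le_iSup₂_of_le n (Set.mem_Iio.mpr (Nat.lt_succ_self n)) le_rfl

instance (V : Type) : IsProbabilityMeasure (MU V) := by
  unfold MU
  infer_instance

theorem indep_fn (n : ℕ) : Indep (fn V n) (sg V n) (MU V) := by
  have h1 : iIndepFun (fun (i : ℕ) (u : ℕ → V → I) => u i) (MU V) := by
    unfold MU
    exact iIndepFun_infinitePi (X := fun _ (x : V → I) => x) (fun i => measurable_id)
  have h2 : iIndep (fun i => sg V i) (MU V) := (iIndepFun_iff_iIndep _ _ _).mp h1
  have h3 := indep_iSup_of_disjoint (fun i => sg_le (V := V) i) h2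
    (S := Set.Iio n) (T := {n}) (by
      rw [Set.disjoint_singleton_right]
      exact fun h => lt_irrefl n (Set.mem_Iio.mp h))
  have h4 : (⨆ i ∈ ({n} : Set ℕ), sg V i) = sg V n := by simp
  rw [h4] at h3
  exact h3

/-- the law of the labels used in one step -/
theorem step_law (n : ℕ) (R : Finset V) (S : V → Set I) (hS : ∀ m ∈ R, MeasurableSet (S m)) :
    MeasurableSet[sg V n] {u : ℕ → V → I | ∀ m ∈ R, u n m ∈ S m} ∧
    (MU V).real {u : ℕ → V → I | ∀ m ∈ R, u n m ∈ S m} =
      ∏ m ∈ R, (volume : Measure I).real (S m) := by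
  have hm : MeasurableSet (Set.pi (R : Set V) S) :=
    MeasurableSet.pi R.countable_toSet fun m hm => hS m hm
  have e : {u : ℕ → V → I | ∀ m ∈ R, u n m ∈ S m} =
      (fun u : ℕ → V → I => u n) ⁻¹' (Set.pi (R : Set V) S) := by
    ext u
    simp [Set.mem_pi]
  constructor
  · rw [e]
    exact ⟨_, hm, rfl⟩
  · rw [e]
    have h1 : (MU V) ((fun u : ℕ → V → I => u n) ⁻¹' (Set.pi (R : Set V) S)) =
        Measure.infinitePi (fun _ : V => (volume : Measure I)) (Set.pi (R : Set V) S) := by
      unfold MU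
      exact (measurePreserving_eval_infinitePi
        (fun _ : ℕ => Measure.infinitePi (fun _ : V => (volume : Measure I))) n).measure_preimage
          hm.nullMeasurableSet
    rw [measureReal_def, h1, Measure.infinitePi_pi _ (fun m hm => hS m hm), ENNReal.toReal_prod]
    rfl

theorem fin_graphs {W : Set V} (hW : W.Finite) : Set.Finite {t : SimpleGraph V |
    ∀ a b, t.Adj a b → a ∈ W} := by
  have h1 : Set.Finite {D : Set (V × V) | D ⊆ W ×ˢ W} := (hW.prod hW).finite_subsets
  refine Set.Finite.of_injOn (f := fun t : SimpleGraph V => {p : V × V | t.Adj p.1 p.2}) ?_ ?_ h1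
  · intro t ht p hp
    exact ⟨ht _ _ hp, ht _ _ (SimpleGraph.Adj.symm hp)⟩
  · intro t _ t' _ h
    ext a b
    have h' : {p : V × V | t.Adj p.1 p.2} = {p : V × V | t'.Adj p.1 p.2} := h
    have : (a, b) ∈ {p : V × V | t.Adj p.1 p.2} ↔ (a, b) ∈ {p : V × V | t'.Adj p.1 p.2} := by
      rw [h']
    exact this

section law

variable (Kf : KT) (H : ℕ → SimpleGraph V) (o : V → I) (hK : IsKer Kf)
  (h0 : H 0 = ⊥) (hH : Monotone H) (hf : ∀ n x, (cls (H n) x).Finite)
  (ho : Function.Injective o)

/-- closed sets -/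
def Cl (A : SimpleGraph V) (W : Set V) : Prop := ∀ x y, A.Reachable x y → x ∈ W → y ∈ W

theorem Cl_mono {A B : SimpleGraph V} (h : A ≤ B) {W : Set V} (hW : Cl B W) : Cl A W :=
  fun x y hxy hx => hW x y (hxy.mono h) hx

include hK h0 hH hf ho in
theorem Tn_rst_mem (u : ℕ → V → I) (n : ℕ) (W : Set V) (hW : Cl (H n) W) :
    rst (Tn Kf H o u n) W ∈ MF (H n) W := rst_mem hW (Tn_mem Kf H o hK h0 hH hf ho u n)

include hK h0 hH hf ho in
/-- one step -/
theorem step_iff (u : ℕ → V → I) (n : ℕ) (W : Set V) (hW : Cl (H (n + 1)) W) (R : Finset V)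
    (hR : ∀ m, m ∈ R ↔ m ∈ Mn (H (n + 1)) o ∧ m ∈ W) {t' : SimpleGraph V}
    (ht' : t' ∈ MF (H (n + 1)) W) :
    rst (Tn Kf H o u (n + 1)) W = t' ↔ ∀ m ∈ R,
      Kf _ ((H n).comap (phm (H (n + 1)) (hf (n + 1)) o ho m))
        ((H (n + 1)).comap (phm (H (n + 1)) (hf (n + 1)) o ho m))
        ((rst (Tn Kf H o u n) W).comap (phm (H (n + 1)) (hf (n + 1)) o ho m)) (u n m) =
      t'.comap (phm (H (n + 1)) (hf (n + 1)) o ho m) := by
  have key : ∀ m ∈ R, (rst (Tn Kf H o u (n + 1)) W).comap
      (phm (H (n + 1)) (hf (n + 1)) o ho m) =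
      Kf _ ((H n).comap (phm (H (n + 1)) (hf (n + 1)) o ho m))
        ((H (n + 1)).comap (phm (H (n + 1)) (hf (n + 1)) o ho m))
        ((rst (Tn Kf H o u n) W).comap (phm (H (n + 1)) (hf (n + 1)) o ho m)) (u n m) := by
    intro m hm
    have hm' := (hR m).mp hm
    rw [rst_comap (H (n + 1)) (hf (n + 1)) o ho W hW hm'.2,
      rst_comap (H (n + 1)) (hf (n + 1)) o ho W hW hm'.2]
    exact stepT_comap Kf (H n) (H (n + 1)) (Tn Kf H o u n) (hf (n + 1)) o (u n) ho hm'.1
  constructor
  · intro h m hm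
    rw [← key m hm, h]
  · intro h
    have h1 := Tn_rst_mem Kf H o hK h0 hH hf ho u (n + 1) W hW
    apply ext_comap (H (n + 1)) (hf (n + 1)) o ho W hW (MF_adj (H (n + 1)) le_rfl h1)
      (MF_adj (H (n + 1)) le_rfl ht')
    intro m hm hmW
    have hmR := (hR m).mpr ⟨hm, hmW⟩
    rw [key m hmR]
    exact h m hmR

include hK h0 hH hf ho in
/-- the law of the forests in closed sets -/
theorem main_law (n : ℕ) : ∀ W : Set V, W.Finite → Cl (H n) W →
    (MF (H n) W).Finite ∧ 0 < (MF (H n) W).ncard ∧ ∀ t : SimpleGraph V,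
      MeasurableSet[fn V n] {u : ℕ → V → I | rst (Tn Kf H o u n) W = t} ∧
      (t ∈ MF (H n) W → (MU V).real {u : ℕ → V → I | rst (Tn Kf H o u n) W = t} =
        1 / ((MF (H n) W).ncard : ℝ)) := by
  induction n with
  | zero =>
    intro W hWf hW
    have hfin : (MF (H 0) W).Finite := (fin_graphs hWf).subset fun t ht => ht.2.1
    have e : MF (H 0) W = {⊥} := by
      ext t
      constructor
      · intro ht
        have := ht.1
        rw [h0] at this
        exact le_bot_iff.mp this
      · rintro rfl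
        refine ⟨bot_le, fun a b h => h.elim, SimpleGraph.isAcyclic_bot, fun a b _ h => ?_⟩
        rw [h0] at h
        exact h
    refine ⟨hfin, by rw [e]; simp, ?_⟩
    have e1 : ∀ u : ℕ → V → I, rst (Tn Kf H o u 0) W = ⊥ := by
      intro u
      ext a b
      rw [rst_adj]
      constructor
      · intro h
        exact h.1
      · intro h
        exact h.elim
    intro t
    simp only [e1]
    refine ⟨MeasurableSet.const _, fun ht => ?_⟩
    rw [e] at ht ⊢
    have ht' : t = ⊥ := ht
    subst ht'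
    simp
  | succ n ih =>
    intro W hWf hW
    have hle : H n ≤ H (n + 1) := hH (Nat.le_succ n)
    have hWn : Cl (H n) W := Cl_mono hle hW
    obtain ⟨hfin, hpos, ihl⟩ := ih W hWf hWn
    obtain ⟨R, hR⟩ : ∃ R : Finset V, ∀ m, m ∈ R ↔ m ∈ Mn (H (n + 1)) o ∧ m ∈ W := by
      have : ({m | m ∈ Mn (H (n + 1)) o ∧ m ∈ W} : Set V).Finite := hWf.subset fun m hm => hm.2
      exact ⟨this.toFinset, fun m => this.mem_toFinset⟩
    have hcard := MF_card (H (n + 1)) (H n) (hf (n + 1)) o ho hle W hW R hR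
    have hcard' := MF_card (H (n + 1)) (H (n + 1)) (hf (n + 1)) o ho le_rfl W hW R hR
    have hfin' := MF_finite (H (n + 1)) (H (n + 1)) (hf (n + 1)) o ho le_rfl W hW R hR
    have hpos' : 0 < (MF (H (n + 1)) W).ncard := by
      rw [Set.ncard_pos hfin']
      exact ⟨_, Tn_rst_mem Kf H o hK h0 hH hf ho (fun _ _ => 0) (n + 1) W hW⟩
    -- the events of the step
    let S : SimpleGraph V → SimpleGraph V → V → Set I := fun t' t m =>
      {v : I | Kf _ ((H n).comap (phm (H (n + 1)) (hf (n + 1)) o ho m))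
        ((H (n + 1)).comap (phm (H (n + 1)) (hf (n + 1)) o ho m))
        (t.comap (phm (H (n + 1)) (hf (n + 1)) o ho m)) v =
      t'.comap (phm (H (n + 1)) (hf (n + 1)) o ho m)}
    have hS : ∀ t' t m, MeasurableSet (S t' t m) := fun t' t m => hK.meas _ _ _ _ _
    have hdec : ∀ t' ∈ MF (H (n + 1)) W,
        {u : ℕ → V → I | rst (Tn Kf H o u (n + 1)) W = t'} =
        ⋃ t ∈ hfin.toFinset, ({u : ℕ → V → I | rst (Tn Kf H o u n) W = t} ∩
          {u : ℕ → V → I | ∀ m ∈ R, u n m ∈ S t' t m}) := by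
      intro t' ht'
      ext u
      simp only [Set.mem_iUnion, Set.mem_inter_iff, Set.mem_ofPred_eq]
      rw [step_iff Kf H o hK h0 hH hf ho u n W hW R hR ht']
      constructor
      · intro h
        exact ⟨_, hfin.mem_toFinset.mpr (Tn_rst_mem Kf H o hK h0 hH hf ho u n W hWn), rfl, h⟩
      · rintro ⟨t, _, rfl, h⟩
        exact h
    have hmeas : ∀ t' t, MeasurableSet[fn V (n + 1)]
        ({u : ℕ → V → I | rst (Tn Kf H o u n) W = t} ∩
          {u : ℕ → V → I | ∀ m ∈ R, u n m ∈ S t' t m}) := fun t' t =>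
      MeasurableSet.inter (fn_mono n _ (ihl t).1)
        (sg_fn n _ (step_law n R (S t' t) (fun m _ => hS t' t m)).1)
    refine ⟨hfin', hpos', fun t' => ⟨?_, fun ht' => ?_⟩⟩
    · by_cases ht' : t' ∈ MF (H (n + 1)) W
      · rw [hdec t' ht']
        exact Finset.measurableSet_biUnion _ fun t _ => hmeas t' t
      · have : {u : ℕ → V → I | rst (Tn Kf H o u (n + 1)) W = t'} = ∅ := by
          ext u
          simp only [Set.mem_ofPred_eq, Set.mem_empty_iff_false, iff_false]
          rintro rfl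
          exact ht' (Tn_rst_mem Kf H o hK h0 hH hf ho u (n + 1) W hW)
        rw [this]
        exact @MeasurableSet.empty _ (fn V (n + 1))
    · rw [hdec t' ht', measureReal_biUnion_finset]
      · have h1 : ∀ t ∈ hfin.toFinset, (MU V).real
            ({u : ℕ → V → I | rst (Tn Kf H o u n) W = t} ∩
              {u : ℕ → V → I | ∀ m ∈ R, u n m ∈ S t' t m}) =
            1 / ((MF (H n) W).ncard : ℝ) * ∏ m : R, (volume : Measure I).real (S t' t m.1) := by
          intro t ht
          have h2 := (Indep_iff _ _ _).mp (indep_fn (V := V) n) _ _ (ihl t).1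
            (step_law n R (S t' t) (fun m _ => hS t' t m)).1
          rw [measureReal_def, h2, ENNReal.toReal_mul, ← measureReal_def, ← measureReal_def,
            (ihl t).2 (hfin.mem_toFinset.mp ht),
            (step_law n R (S t' t) (fun m _ => hS t' t m)).2,
            ← Finset.prod_coe_sort]
        rw [Finset.sum_congr rfl h1, ← Finset.mul_sum]
        have h3 := MF_sum (H (n + 1)) (H n) (hf (n + 1)) o ho hle W hW R hR
          (fun m s => (volume : Measure I).real
            {v : I | Kf _ ((H n).comap (phm (H (n + 1)) (hf (n + 1)) o ho m))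
              ((H (n + 1)).comap (phm (H (n + 1)) (hf (n + 1)) o ho m)) s v =
              t'.comap (phm (H (n + 1)) (hf (n + 1)) o ho m)})
        have h4 : ∑ t ∈ hfin.toFinset, ∏ m : R, (volume : Measure I).real (S t' t m.1) =
            ∏ m : R, (((MSF ((H n).comap (phm (H (n + 1)) (hf (n + 1)) o ho m.1))).ncard : ℝ) /
              ((MSF ((H (n + 1)).comap (phm (H (n + 1)) (hf (n + 1)) o ho m.1))).ncard : ℝ)) := by
          refine h3.trans (Finset.prod_congr rfl fun m _ => ?_)
          exact hK.unif _ _ _ _ (fun a b h => hle h) (conn_comap _ _ _ _ _)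
            (comap_mem (H (n + 1)) (H (n + 1)) (hf (n + 1)) o ho le_rfl W hW
              ((hR m.1).mp m.2).2 ht')
        rw [h4, Finset.prod_div_distrib]
        have h5 : ((MF (H n) W).ncard : ℝ) ≠ 0 := by exact_mod_cast hpos.ne'
        rw [hcard] at h5 ⊢
        rw [hcard']
        push_cast at h5 ⊢
        field_simp
      · intro t _ t₂ _ hne
        rw [Function.onFun, Set.disjoint_left]
        rintro u ⟨h1, _⟩ ⟨h2, _⟩
        exact hne (h1.symm.trans h2)
      · intro t _
        exact fn_le _ _ (hmeas t' t)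

end law

theorem law : S_LAW := by
  intro V _ Kf H o hK h0 hH hf ho
  refine ⟨fun u n => ⟨Tn_mem Kf H o hK h0 hH hf ho u n, Tn_mono Kf H o hK h0 hH hf ho u n⟩, ?_⟩
  intro n x Q
  have hW : Cl (H n) (cls (H n) x) := fun a b hab ha => SimpleGraph.Reachable.trans ha hab
  obtain ⟨hfin, hpos, hl⟩ := main_law Kf H o hK h0 hH hf ho n (cls (H n) x) (hf n x) hW
  have hfinQ : ({t | t ∈ MF (H n) (cls (H n) x) ∧ Q t}).Finite := hfin.subset fun t ht => ht.1
  have e : {u : ℕ → V → I | Q (rst (Tn Kf H o u n) (cls (H n) x))} =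
      ⋃ t ∈ hfinQ.toFinset, {u : ℕ → V → I | rst (Tn Kf H o u n) (cls (H n) x) = t} := by
    ext u
    simp only [Set.mem_iUnion, Set.mem_ofPred_eq]
    constructor
    · intro h
      exact ⟨_, hfinQ.mem_toFinset.mpr
        ⟨Tn_rst_mem Kf H o hK h0 hH hf ho u n _ hW, h⟩, rfl⟩
    · rintro ⟨t, ht, rfl⟩
      exact (hfinQ.mem_toFinset.mp ht).2
  have hm : ∀ t, MeasurableSet {u : ℕ → V → I | rst (Tn Kf H o u n) (cls (H n) x) = t} :=
    fun t => fn_le n _ (hl t).1
  constructor
  · rw [e]
    exact Finset.measurableSet_biUnion _ fun t _ => hm t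
  · rw [e, measureReal_biUnion_finset]
    · have h1 : ∀ t ∈ hfinQ.toFinset,
          (MU V).real {u : ℕ → V → I | rst (Tn Kf H o u n) (cls (H n) x) = t} =
          1 / ((MF (H n) (cls (H n) x)).ncard : ℝ) :=
        fun t ht => (hl t).2 (hfinQ.mem_toFinset.mp ht).1
      rw [Finset.sum_congr rfl h1, Finset.sum_const, nsmul_eq_mul,
        ← Set.ncard_eq_toFinset_card _ hfinQ, MF_cls, mul_one_div]
    · intro t _ t₂ _ hne
      rw [Function.onFun, Set.disjoint_left]
      intro u h1 h2
      have h1' : rst (Tn Kf H o u n) (cls (H n) x) = t := h1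
      exact hne (h1'.symm.trans h2)
    · intro t _
      exact hm t

end Pool.Agent.Y41.WU
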