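import Pool.Agent.Y782.WU.Stm

/-!
Project WU: transport of graphs on a component to `Fin k`; the forests `Tn` (helper41).
-/

set_option autoImplicit false

open MeasureTheory ProbabilityTheory Filter Topology
open scoped ENNReal NNReal BigOperators unitInterval

namespace Pool.Agent.Y41.WU

open Pool.Agent.Y782.WU

variable {V : Type}

/-! ### Ranks -/

/-- rank in a set -/
noncomputable def rkC (C : Set V) (o : V → I) (w : V) : ℕ := Set.ncard {z | z ∈ C ∧ o z < o w}

theorem rkC_lt {C : Set V} (hC : C.Finite) {o : V → I} {v w : V} (hv : v ∈ C)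
    (h : o v < o w) : rkC C o v < rkC C o w := by
  apply Set.ncard_lt_ncard
  · constructor
    · rintro z ⟨h1, h2⟩
      exact ⟨h1, h2.trans h⟩
    · intro hsub
      exact lt_irrefl _ (hsub ⟨hv, h⟩).2
  · exact hC.subset fun z hz => hz.1

theorem rkC_inj {C : Set V} (hC : C.Finite) {o : V → I} (ho : Function.Injective o) {v w : V}
    (hv : v ∈ C) (hw : w ∈ C) (h : rkC C o v = rkC C o w) : v = w := by
  by_contra hne
  rcases lt_trichotomy (o v) (o w) with h1 | h1 | h1
  · exact absurd h (rkC_lt hC hv h1).ne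
  · exact hne (ho h1)
  · exact absurd h (rkC_lt hC hw h1).ne'

theorem rkC_lt_card {C : Set V} (hC : C.Finite) {o : V → I} {v : V} (hv : v ∈ C) :
    rkC C o v < C.ncard := by
  apply Set.ncard_lt_ncard
  · constructor
    · rintro z ⟨h1, _⟩
      exact h1
    · intro hsub
      exact lt_irrefl _ (hsub hv).2
  · exact hC

theorem exists_ph (C : Set V) (hC : C.Finite) (o : V → I) (ho : Function.Injective o) :
    ∃ φ : Fin C.ncard → V, Function.Injective φ ∧ Set.range φ = C ∧
      ∀ a, rkC C o (φ a) = (a : ℕ) := by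
  let r : C → Fin C.ncard := fun v => ⟨rkC C o v.1, rkC_lt_card hC v.2⟩
  have hr : Function.Injective r := by
    intro v w h
    have : rkC C o v.1 = rkC C o w.1 := congrArg Fin.val h
    exact Subtype.ext (rkC_inj hC ho v.2 w.2 this)
  have : Finite C := hC
  have hb : Function.Bijective r :=
    hr.bijective_of_nat_card_le (by rw [Nat.card_coe_set_eq, Nat.card_fin])
  let e := Equiv.ofBijective r hb
  refine ⟨fun a => (e.symm a).1, ?_, ?_, ?_⟩
  · intro a b h
    exact e.symm.injective (Subtype.ext h)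
  · ext v
    constructor
    · rintro ⟨a, rfl⟩
      exact (e.symm a).2
    · intro hv
      exact ⟨e ⟨v, hv⟩, by simp⟩
  · intro a
    have : r (e.symm a) = a := e.apply_symm_apply a
    exact congrArg Fin.val this

/-- the vertex with a given rank -/
noncomputable def ph (C : Set V) (hC : C.Finite) (o : V → I) (ho : Function.Injective o) :
    Fin C.ncard → V := (exists_ph C hC o ho).choose

theorem ph_inj (C : Set V) (hC : C.Finite) (o : V → I) (ho : Function.Injective o) :
    Function.Injective (ph C hC o ho) := (exists_ph C hC o ho).choose_spec.1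

theorem ph_range (C : Set V) (hC : C.Finite) (o : V → I) (ho : Function.Injective o) :
    Set.range (ph C hC o ho) = C := (exists_ph C hC o ho).choose_spec.2.1

theorem ph_rk (C : Set V) (hC : C.Finite) (o : V → I) (ho : Function.Injective o)
    (a : Fin C.ncard) : rkC C o (ph C hC o ho a) = (a : ℕ) :=
  (exists_ph C hC o ho).choose_spec.2.2 a

theorem ph_mem (C : Set V) (hC : C.Finite) (o : V → I) (ho : Function.Injective o)
    (a : Fin C.ncard) : ph C hC o ho a ∈ C :=
  (ph_range C hC o ho).subset (Set.mem_range_self a)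

theorem ph_surj (C : Set V) (hC : C.Finite) (o : V → I) (ho : Function.Injective o) {v : V}
    (hv : v ∈ C) : ∃ a, ph C hC o ho a = v := by
  have := ph_range C hC o ho
  rw [← this] at hv
  exact hv

/-- the graph `A` on `C`, transported to `Fin k` -/
noncomputable def pullC (C : Set V) (o : V → I) (A : SimpleGraph V) :
    SimpleGraph (Fin C.ncard) :=
  SimpleGraph.fromRel (fun a b => ∃ v w, v ∈ C ∧ w ∈ C ∧
    rkC C o v = (a : ℕ) ∧ rkC C o w = (b : ℕ) ∧ A.Adj v w)

theorem pullC_eq (C : Set V) (hC : C.Finite) (o : V → I) (ho : Function.Injective o)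
    (A : SimpleGraph V) : pullC C o A = A.comap (ph C hC o ho) := by
  have key : ∀ a b : Fin C.ncard, (∃ v w, v ∈ C ∧ w ∈ C ∧
      rkC C o v = (a : ℕ) ∧ rkC C o w = (b : ℕ) ∧ A.Adj v w) ↔
      A.Adj (ph C hC o ho a) (ph C hC o ho b) := by
    intro a b
    constructor
    · rintro ⟨v, w, hv, hw, h1, h2, h3⟩
      have e1 : ph C hC o ho a = v :=
        rkC_inj hC ho (ph_mem C hC o ho a) hv (by rw [ph_rk, h1])
      have e2 : ph C hC o ho b = w :=
        rkC_inj hC ho (ph_mem C hC o ho b) hw (by rw [ph_rk, h2])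
      rw [e1, e2]
      exact h3
    · intro h
      exact ⟨_, _, ph_mem C hC o ho a, ph_mem C hC o ho b, ph_rk C hC o ho a, ph_rk C hC o ho b, h⟩
  ext a b
  rw [SimpleGraph.comap_adj, pullC, SimpleGraph.fromRel_adj, key, key]
  constructor
  · rintro ⟨_, h | h⟩
    · exact h
    · exact h.symm
  · intro h
    exact ⟨fun e => h.ne (congrArg _ e), Or.inl h⟩

/-- the relation in the definition of `stepT` -/
def PC (Kf : KT) (C : Set V) (H H' T : SimpleGraph V) (o u : V → I) (x y : V) : Prop :=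
  y ∈ C ∧ ∃ m, m ∈ C ∧ rkC C o m = 0 ∧ ∃ a b : Fin C.ncard, rkC C o x = (a : ℕ) ∧
    rkC C o y = (b : ℕ) ∧ (Kf _ (pullC C o H) (pullC C o H') (pullC C o T) (u m)).Adj a b

theorem stepT_eq (Kf : KT) (H H' T : SimpleGraph V) (o u : V → I) :
    stepT Kf H H' T o u = SimpleGraph.fromRel (fun x y => PC Kf (cls H' x) H H' T o u x y) := rfl

theorem cls_eq {H : SimpleGraph V} {x y : V} (h : H.Reachable x y) : cls H x = cls H y := by
  ext z
  exact ⟨fun hz => h.symm.trans hz, fun hz => h.trans hz⟩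

theorem stepT_reach (Kf : KT) (H H' T : SimpleGraph V) (o u : V → I) {x y : V}
    (h : (stepT Kf H H' T o u).Adj x y) : H'.Reachable x y := by
  rw [stepT_eq, SimpleGraph.fromRel_adj] at h
  rcases h.2 with h | h
  · exact h.1
  · have h1 : H'.Reachable y x := h.1
    exact h1.symm

theorem PC_ph (Kf : KT) (C : Set V) (hC : C.Finite) (H H' T : SimpleGraph V) (o u : V → I)
    (ho : Function.Injective o) (m : V) (hm : m ∈ C) (hm0 : rkC C o m = 0) (a b : Fin C.ncard) :
    PC Kf C H H' T o u (ph C hC o ho a) (ph C hC o ho b) ↔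
      (Kf _ (H.comap (ph C hC o ho)) (H'.comap (ph C hC o ho)) (T.comap (ph C hC o ho))
        (u m)).Adj a b := by
  unfold PC
  rw [pullC_eq C hC o ho, pullC_eq C hC o ho, pullC_eq C hC o ho]
  constructor
  · rintro ⟨_, m', hm', hm0', a', b', h1, h2, h3⟩
    have e : m' = m := rkC_inj hC ho hm' hm (by rw [hm0, hm0'])
    rw [ph_rk] at h1 h2
    have e1 : a = a' := Fin.ext h1
    have e2 : b = b' := Fin.ext h2
    rw [e1, e2, ← e]
    exact h3
  · intro h
    exact ⟨ph_mem C hC o ho b, m, hm, hm0, a, b, ph_rk C hC o ho a, ph_rk C hC o ho b, h⟩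

/-! ### Representatives of the components -/

/-- `m` is the first vertex of its component -/
def Mn (H : SimpleGraph V) (o : V → I) : Set V := {m | rkC (cls H m) o m = 0}

theorem self_mem (H : SimpleGraph V) (x : V) : x ∈ cls H x := SimpleGraph.Reachable.refl x

/-- the transport for the component of `m` -/
noncomputable def phm (H : SimpleGraph V) (hf : ∀ x, (cls H x).Finite) (o : V → I)
    (ho : Function.Injective o) (m : V) : Fin (cls H m).ncard → V := ph (cls H m) (hf m) o ho

theorem phm_inj (H : SimpleGraph V) (hf : ∀ x, (cls H x).Finite) (o : V → I)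
    (ho : Function.Injective o) (m : V) : Function.Injective (phm H hf o ho m) :=
  ph_inj _ _ _ _

theorem phm_range (H : SimpleGraph V) (hf : ∀ x, (cls H x).Finite) (o : V → I)
    (ho : Function.Injective o) (m : V) : Set.range (phm H hf o ho m) = cls H m :=
  ph_range _ _ _ _

theorem phm_mem (H : SimpleGraph V) (hf : ∀ x, (cls H x).Finite) (o : V → I)
    (ho : Function.Injective o) (m : V) (a : Fin (cls H m).ncard) :
    H.Reachable m (phm H hf o ho m a) := ph_mem _ _ _ _ a

theorem phm_surj (H : SimpleGraph V) (hf : ∀ x, (cls H x).Finite) (o : V → I)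
    (ho : Function.Injective o) (m : V) {v : V} (hv : H.Reachable m v) :
    ∃ a, phm H hf o ho m a = v := ph_surj _ _ _ _ hv

theorem exists_Mn (H : SimpleGraph V) (hf : ∀ x, (cls H x).Finite) (o : V → I)
    (ho : Function.Injective o) (x : V) : ∃ m, m ∈ Mn H o ∧ H.Reachable m x := by
  have hpos : 0 < (cls H x).ncard := by
    rw [Set.ncard_pos (hf x)]
    exact ⟨x, self_mem H x⟩
  refine ⟨ph (cls H x) (hf x) o ho ⟨0, hpos⟩, ?_, ?_⟩
  · have h1 : H.Reachable x (ph (cls H x) (hf x) o ho ⟨0, hpos⟩) :=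
      ph_mem (cls H x) (hf x) o ho ⟨0, hpos⟩
    change rkC (cls H _) o _ = 0
    rw [← cls_eq h1, ph_rk]
  · have h1 : H.Reachable x (ph (cls H x) (hf x) o ho ⟨0, hpos⟩) :=
      ph_mem (cls H x) (hf x) o ho ⟨0, hpos⟩
    exact h1.symm

theorem Mn_unique (H : SimpleGraph V) (hf : ∀ x, (cls H x).Finite) (o : V → I)
    (ho : Function.Injective o) {m m' : V} (hm : m ∈ Mn H o) (hm' : m' ∈ Mn H o)
    (h : H.Reachable m m') : m = m' := by
  have h1 : rkC (cls H m) o m = 0 := hm
  have h2 : rkC (cls H m') o m' = 0 := hm'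
  rw [← cls_eq h] at h2
  exact rkC_inj (hf m) ho (self_mem H m) h (by rw [h1, h2])

/-- the step in the coordinates of a component -/
theorem stepT_comap (Kf : KT) (H H' T : SimpleGraph V) (hf : ∀ x, (cls H' x).Finite) (o u : V → I)
    (ho : Function.Injective o) {m : V} (hm : m ∈ Mn H' o) :
    (stepT Kf H H' T o u).comap (phm H' hf o ho m) =
      Kf _ (H.comap (phm H' hf o ho m)) (H'.comap (phm H' hf o ho m))
        (T.comap (phm H' hf o ho m)) (u m) := by
  have hm0 : rkC (cls H' m) o m = 0 := hm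
  have key : ∀ a b, PC Kf (cls H' (phm H' hf o ho m a)) H H' T o u (phm H' hf o ho m a)
      (phm H' hf o ho m b) ↔ (Kf _ (H.comap (phm H' hf o ho m)) (H'.comap (phm H' hf o ho m))
        (T.comap (phm H' hf o ho m)) (u m)).Adj a b := by
    intro a b
    rw [← cls_eq (phm_mem H' hf o ho m a)]
    exact PC_ph Kf (cls H' m) (hf m) H H' T o u ho m (self_mem H' m) hm0 a b
  ext a b
  rw [SimpleGraph.comap_adj, stepT_eq, SimpleGraph.fromRel_adj, key, key]
  constructor
  · rintro ⟨_, h | h⟩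
    · exact h
    · exact h.symm
  · intro h
    exact ⟨fun e => h.ne (phm_inj H' hf o ho m e), Or.inl h⟩

/-! ### Reachability and acyclicity in coordinates -/

theorem reach_comap {α : Type} (φ : α → V) (hφ : Function.Injective φ) (A : SimpleGraph V)
    (hcl : ∀ x y, A.Adj x y → x ∈ Set.range φ → y ∈ Set.range φ) (a b : α) :
    (A.comap φ).Reachable a b ↔ A.Reachable (φ a) (φ b) := by
  constructor
  · intro h
    exact h.map (SimpleGraph.Hom.comap φ A)
  · intro h
    rw [SimpleGraph.reachable_iff_reflTransGen] at h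
    have key : ∀ y, Relation.ReflTransGen A.Adj (φ a) y →
        ∃ c, φ c = y ∧ (A.comap φ).Reachable a c := by
      intro y hy
      induction hy with
      | refl => exact ⟨a, rfl, SimpleGraph.Reachable.refl a⟩
      | tail _ hbc ih =>
        obtain ⟨c, rfl, hc⟩ := ih
        obtain ⟨d, rfl⟩ := hcl _ _ hbc ⟨c, rfl⟩
        exact ⟨d, rfl, hc.trans (SimpleGraph.Adj.reachable (G := A.comap φ) hbc)⟩
    obtain ⟨c, hc, hc'⟩ := key _ h
    rw [hφ hc] at hc'
    exact hc'

/-- maximal spanning forests inside `W` -/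
def MF (A : SimpleGraph V) (W : Set V) : Set (SimpleGraph V) :=
  {t | t ≤ A ∧ (∀ a b, t.Adj a b → a ∈ W) ∧ t.IsAcyclic ∧
    ∀ a b, a ∈ W → A.Reachable a b → t.Reachable a b}

theorem MF_univ (A : SimpleGraph V) : MF A Set.univ = MSF A := by
  ext t
  constructor
  · rintro ⟨h1, _, h2, h3⟩
    exact ⟨h1, h2, fun a b h => h3 a b trivial h⟩
  · rintro ⟨h1, h2, h3⟩
    exact ⟨h1, fun _ _ _ => trivial, h2, fun a b _ h => h3 a b h⟩

theorem MF_cls (A : SimpleGraph V) (x : V) : MF A (cls A x) = STs A x := by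
  ext t
  constructor
  · rintro ⟨h1, h2, h3, h4⟩
    exact ⟨h1, h2, h3, fun a ha => h4 x a (self_mem A x) ha⟩
  · rintro ⟨h1, h2, h3, h4⟩
    refine ⟨h1, h2, h3, fun a b ha hab => ?_⟩
    have hb : b ∈ cls A x := SimpleGraph.Reachable.trans ha hab
    exact (h4 a ha).symm.trans (h4 b hb)

theorem range_closed (H : SimpleGraph V) (hf : ∀ x, (cls H x).Finite) (o : V → I)
    (ho : Function.Injective o) (m : V) (B : SimpleGraph V)
    (hB : ∀ x y, B.Adj x y → H.Reachable x y) :
    ∀ x y, B.Adj x y → x ∈ Set.range (phm H hf o ho m) → y ∈ Set.range (phm H hf o ho m) := by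
  intro x y h hx
  rw [phm_range] at hx ⊢
  exact SimpleGraph.Reachable.trans hx (hB x y h)

/-- restriction to a component -/
theorem comap_mem (H A : SimpleGraph V) (hf : ∀ x, (cls H x).Finite) (o : V → I)
    (ho : Function.Injective o) (hA : A ≤ H) (W : Set V)
    (hW : ∀ x y, H.Reachable x y → x ∈ W → y ∈ W) {m : V} (hm : m ∈ W) {t : SimpleGraph V}
    (ht : t ∈ MF A W) : t.comap (phm H hf o ho m) ∈ MSF (A.comap (phm H hf o ho m)) := by
  obtain ⟨h1, h2, h3, h4⟩ := ht
  refine ⟨?_, ?_, ?_⟩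
  · intro a b h
    exact h1 h
  · exact h3.comap (SimpleGraph.Hom.comap _ t) (phm_inj H hf o ho m)
  · intro a b h
    rw [reach_comap _ (phm_inj H hf o ho m) A (range_closed H hf o ho m A
      fun x y h => (hA h).reachable)] at h
    rw [reach_comap _ (phm_inj H hf o ho m) t (range_closed H hf o ho m t
      fun x y h => (hA (h1 h)).reachable)]
    exact h4 _ _ (hW _ _ (phm_mem H hf o ho m a) hm) h

/-- gluing of the components -/
theorem mem_of_comap (H A : SimpleGraph V) (hf : ∀ x, (cls H x).Finite) (o : V → I)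
    (ho : Function.Injective o) (hA : A ≤ H) (W : Set V)
    (hW : ∀ x y, H.Reachable x y → x ∈ W → y ∈ W) {t : SimpleGraph V}
    (ht1 : ∀ x y, t.Adj x y → x ∈ W ∧ H.Reachable x y)
    (ht : ∀ m ∈ Mn H o, m ∈ W → t.comap (phm H hf o ho m) ∈ MSF (A.comap (phm H hf o ho m))) :
    t ∈ MF A W := by
  have hle : t ≤ A := by
    intro x y h
    obtain ⟨m, hm, hmx⟩ := exists_Mn H hf o ho x
    obtain ⟨a, rfl⟩ := phm_surj H hf o ho m hmx
    obtain ⟨b, rfl⟩ := phm_surj H hf o ho m (hmx.trans (ht1 _ _ h).2)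
    have hmW : m ∈ W := hW _ _ hmx.symm (ht1 _ _ h).1
    exact (ht m hm hmW).1 h
  refine ⟨hle, fun a b h => (ht1 a b h).1, ?_, ?_⟩
  · rw [SimpleGraph.isAcyclic_iff_forall_adj_isBridge]
    intro x y h
    obtain ⟨m, hm, hmx⟩ := exists_Mn H hf o ho x
    obtain ⟨a, rfl⟩ := phm_surj H hf o ho m hmx
    obtain ⟨b, rfl⟩ := phm_surj H hf o ho m (hmx.trans (ht1 _ _ h).2)
    have hmW : m ∈ W := hW _ _ hmx.symm (ht1 _ _ h).1
    have h1 := (ht m hm hmW).2.1
    rw [SimpleGraph.isAcyclic_iff_forall_adj_isBridge] at h1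
    have h2 := h1 (v := a) (w := b) h
    rw [SimpleGraph.isBridge_iff] at h2 ⊢
    refine fun h3 => h2 ?_
    have h4 : (t \ SimpleGraph.fromEdgeSet {s(phm H hf o ho m a, phm H hf o ho m b)}).comap
        (phm H hf o ho m) ≤ t.comap (phm H hf o ho m) \ SimpleGraph.fromEdgeSet {s(a, b)} := by
      intro c d hcd
      rw [SimpleGraph.comap_adj, SimpleGraph.sdiff_adj] at hcd
      rw [SimpleGraph.sdiff_adj]
      refine ⟨hcd.1, fun h5 => hcd.2 ?_⟩
      rw [SimpleGraph.fromEdgeSet_adj] at h5 ⊢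
      refine ⟨?_, fun e => h5.2 (phm_inj H hf o ho m e)⟩
      have h6 : s(c, d) = s(a, b) := h5.1
      have h7 : s(phm H hf o ho m c, phm H hf o ho m d) =
          s(phm H hf o ho m a, phm H hf o ho m b) := by
        have := congrArg (Sym2.map (phm H hf o ho m)) h6
        simpa using this
      exact h7
    refine SimpleGraph.Reachable.mono h4 ?_
    rw [reach_comap _ (phm_inj H hf o ho m) _ (range_closed H hf o ho m _ ?_)]
    · exact h3
    · intro x y hxy
      exact (ht1 x y hxy.1).2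
  · intro x y hx h
    obtain ⟨m, hm, hmx⟩ := exists_Mn H hf o ho x
    have hxy : H.Reachable x y := h.mono hA
    obtain ⟨a, rfl⟩ := phm_surj H hf o ho m hmx
    obtain ⟨b, rfl⟩ := phm_surj H hf o ho m (hmx.trans hxy)
    have hmW : m ∈ W := hW _ _ hmx.symm hx
    rw [← reach_comap _ (phm_inj H hf o ho m) A (range_closed H hf o ho m A
      fun x y h => (hA h).reachable)] at h
    have h1 := (ht m hm hmW).2.2 a b h
    exact h1.map (SimpleGraph.Hom.comap _ t)

theorem conn_comap (H : SimpleGraph V) (hf : ∀ x, (cls H x).Finite) (o : V → I)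
    (ho : Function.Injective o) (m : V) : (H.comap (phm H hf o ho m)).Connected := by
  have : Nonempty (Fin (cls H m).ncard) := by
    obtain ⟨a, _⟩ := phm_surj H hf o ho m (self_mem H m)
    exact ⟨a⟩
  refine ⟨fun a b => ?_⟩
  rw [reach_comap _ (phm_inj H hf o ho m) H (range_closed H hf o ho m H
      fun x y h => h.reachable)]
  exact (phm_mem H hf o ho m a).symm.trans (phm_mem H hf o ho m b)

/-- the pathwise properties of the forests -/
theorem Tn_mem (Kf : KT) (H : ℕ → SimpleGraph V) (o : V → I) (hK : IsKer Kf)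
    (h0 : H 0 = ⊥) (hH : Monotone H) (hf : ∀ n x, (cls (H n) x).Finite)
    (ho : Function.Injective o) (u : ℕ → V → I) (n : ℕ) : Tn Kf H o u n ∈ MSF (H n) := by
  induction n with
  | zero =>
    rw [h0]
    exact ⟨bot_le, SimpleGraph.isAcyclic_bot, fun _ _ h => h⟩
  | succ n ih =>
    rw [← MF_univ] at ih ⊢
    have hle : H n ≤ H (n + 1) := hH (Nat.le_succ n)
    apply mem_of_comap (H (n + 1)) (H (n + 1)) (hf (n + 1)) o ho le_rfl Set.univ
      (fun _ _ _ _ => trivial)
    · intro x y h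
      exact ⟨trivial, stepT_reach _ _ _ _ _ _ h⟩
    · intro m hm _
      change (stepT Kf (H n) (H (n + 1)) (Tn Kf H o u n) o (u n)).comap _ ∈ _
      rw [stepT_comap Kf (H n) (H (n + 1)) (Tn Kf H o u n) (hf (n + 1)) o (u n) ho hm]
      exact hK.mem _ _ _ _ _ (fun a b h => hle h) (conn_comap _ _ _ _ _)
        (comap_mem (H (n + 1)) (H n) (hf (n + 1)) o ho hle Set.univ (fun _ _ _ _ => trivial)
          trivial ih)

theorem Tn_mono (Kf : KT) (H : ℕ → SimpleGraph V) (o : V → I) (hK : IsKer Kf)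
    (h0 : H 0 = ⊥) (hH : Monotone H) (hf : ∀ n x, (cls (H n) x).Finite)
    (ho : Function.Injective o) (u : ℕ → V → I) (n : ℕ) :
    Tn Kf H o u (n + 1) ⊓ H n ≤ Tn Kf H o u n := by
  have hle : H n ≤ H (n + 1) := hH (Nat.le_succ n)
  have ih := Tn_mem Kf H o hK h0 hH hf ho u n
  rw [← MF_univ] at ih
  intro x y h
  have hxy : (H (n + 1)).Reachable x y := (hle h.2).reachable
  obtain ⟨m, hm, hmx⟩ := exists_Mn (H (n + 1)) (hf (n + 1)) o ho x
  obtain ⟨a, rfl⟩ := phm_surj (H (n + 1)) (hf (n + 1)) o ho m hmx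
  obtain ⟨b, rfl⟩ := phm_surj (H (n + 1)) (hf (n + 1)) o ho m (hmx.trans hxy)
  have h1 : ((stepT Kf (H n) (H (n + 1)) (Tn Kf H o u n) o (u n)).comap
      (phm (H (n + 1)) (hf (n + 1)) o ho m)).Adj a b := h.1
  rw [stepT_comap Kf (H n) (H (n + 1)) (Tn Kf H o u n) (hf (n + 1)) o (u n) ho hm] at h1
  have h2 := hK.mono _ ((H n).comap (phm (H (n + 1)) (hf (n + 1)) o ho m))
    ((H (n + 1)).comap (phm (H (n + 1)) (hf (n + 1)) o ho m))
    ((Tn Kf H o u n).comap (phm (H (n + 1)) (hf (n + 1)) o ho m)) (u n m)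
    (fun a b h => hle h) (conn_comap _ _ _ _ _)
    (comap_mem (H (n + 1)) (H n) (hf (n + 1)) o ho hle Set.univ (fun _ _ _ _ => trivial)
      trivial ih)
  exact h2 ⟨h1, h.2⟩

end Pool.Agent.Y41.WU
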